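import Mathlib

set_option autoImplicit false

namespace Pool.Agent.H.MP_f60174_an

open MeasureTheory Set

/-- polynomial in two variables from a list of monomials -/
def ev (l : List (ℝ × ℕ × ℕ)) (p : ℝ × ℝ) : ℝ :=
  (l.map fun m => m.1 * p.1 ^ m.2.1 * p.2 ^ m.2.2).sum

theorem ev_smooth (l : List (ℝ × ℕ × ℕ)) {n : WithTop ℕ∞} : ContDiff ℝ n (ev l) := by
  induction l with
  | nil => exact contDiff_const
  | cons m l ih =>
    have : ev (m :: l) = fun p => m.1 * p.1 ^ m.2.1 * p.2 ^ m.2.2 + ev l p := by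
      ext p; simp [ev]
    rw [this]
    fun_prop

theorem ev_dx (l : List (ℝ × ℕ × ℕ)) (x y : ℝ) : HasDerivAt (fun t => ev l (t, y))
    ((l.map fun m => m.1 * (m.2.1 * x ^ (m.2.1 - 1)) * y ^ m.2.2).sum) x := by
  induction l with
  | nil => simpa [ev] using hasDerivAt_const x (0 : ℝ)
  | cons m l ih =>
    simp only [ev, List.map, List.sum_cons] at ih ⊢
    exact (((hasDerivAt_pow m.2.1 x).const_mul m.1).mul_const _).fun_add ih

theorem ev_dy (l : List (ℝ × ℕ × ℕ)) (x y : ℝ) : HasDerivAt (fun t => ev l (x, t))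
    ((l.map fun m => m.1 * x ^ m.2.1 * (m.2.2 * y ^ (m.2.2 - 1))).sum) y := by
  induction l with
  | nil => simpa [ev] using hasDerivAt_const y (0 : ℝ)
  | cons m l ih =>
    simp only [ev, List.map, List.sum_cons] at ih ⊢
    exact ((hasDerivAt_pow m.2.2 y).const_mul _).fun_add ih

theorem slice (y : ℝ) : {x : ℝ | x ^ 2 + y ^ 2 < 1} = Ioo (-√(1 - y ^ 2)) √(1 - y ^ 2) := by
  ext x
  rw [mem_Ioo, ← abs_lt, Real.lt_sqrt (abs_nonneg x), sq_abs, mem_ofPred_eq]
  constructor <;> intro h <;> linarith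

theorem line {f f' : ℝ → ℝ} (y : ℝ) (hf : ∀ x, HasDerivAt f (f' x) x) (hc : Continuous f')
    (h0 : ∀ x, x ^ 2 + y ^ 2 = 1 → f x = 0) : ∫ x in {x : ℝ | x ^ 2 + y ^ 2 < 1}, f' x = 0 := by
  have hs := Real.sqrt_nonneg (1 - y ^ 2)
  rw [slice, ← integral_Ioc_eq_integral_Ioo, ← intervalIntegral.integral_of_le (by linarith),
    intervalIntegral.integral_eq_sub_of_hasDerivAt (fun x _ => hf x) (hc.intervalIntegrable _ _)]
  rcases le_total 0 (1 - y ^ 2) with h | h
  · rw [h0 _ (by rw [Real.sq_sqrt h]; ring), h0 _ (by rw [neg_sq, Real.sq_sqrt h]; ring), sub_zero]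
  · simp [Real.sqrt_eq_zero'.mpr h]

theorem disc_compact : IsCompact {p : ℝ × ℝ | p.1 ^ 2 + p.2 ^ 2 ≤ 1} := by
  refine (isCompact_Icc (a := ((-1, -1) : ℝ × ℝ)) (b := (1, 1))).of_isClosed_subset
    (isClosed_le (by fun_prop) continuous_const) fun p hp => ?_
  simp only [mem_ofPred_eq] at hp
  refine ⟨⟨?_, ?_⟩, ?_, ?_⟩ <;> simp only <;> nlinarith [sq_nonneg p.1, sq_nonneg p.2]

theorem disc_meas : MeasurableSet {p : ℝ × ℝ | p.1 ^ 2 + p.2 ^ 2 < 1} :=
  (isOpen_lt (by fun_prop) continuous_const).measurableSet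

theorem integ {f : ℝ × ℝ → ℝ} (h : ContinuousOn f {p : ℝ × ℝ | p.1 ^ 2 + p.2 ^ 2 ≤ 1}) :
    IntegrableOn f {p : ℝ × ℝ | p.1 ^ 2 + p.2 ^ 2 < 1} :=
  (h.integrableOn_compact disc_compact).mono_set
    (ofPred_subset_ofPred.mpr fun _ hp => hp.le)

theorem int_dx {F F' : ℝ × ℝ → ℝ} (hf : ∀ x y, HasDerivAt (fun t => F (t, y)) (F' (x, y)) x)
    (hc : Continuous F') (h0 : ∀ p : ℝ × ℝ, p.1 ^ 2 + p.2 ^ 2 = 1 → F p = 0) :
    ∫ p in {p : ℝ × ℝ | p.1 ^ 2 + p.2 ^ 2 < 1}, F' p = 0 := by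
  rw [← integral_indicator disc_meas, Measure.volume_eq_prod, integral_prod_symm _
    ((integrable_indicator_iff disc_meas).mpr (integ hc.continuousOn))]
  refine integral_eq_zero_of_ae (.of_forall fun y => ?_)
  have := line (f := fun t => F (t, y)) (f' := fun t => F' (t, y)) y (fun x => hf x y)
    (by fun_prop) fun x hx => h0 (x, y) hx
  rw [← integral_indicator (by rw [slice]; exact measurableSet_Ioo)] at this
  exact this

theorem int_dy {F F' : ℝ × ℝ → ℝ} (hf : ∀ x y, HasDerivAt (fun t => F (x, t)) (F' (x, y)) y)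
    (hc : Continuous F') (h0 : ∀ p : ℝ × ℝ, p.1 ^ 2 + p.2 ^ 2 = 1 → F p = 0) :
    ∫ p in {p : ℝ × ℝ | p.1 ^ 2 + p.2 ^ 2 < 1}, F' p = 0 := by
  rw [← integral_indicator disc_meas, Measure.volume_eq_prod, integral_prod _
    ((integrable_indicator_iff disc_meas).mpr (integ hc.continuousOn))]
  refine integral_eq_zero_of_ae (.of_forall fun x => ?_)
  have := line (f := fun t => F (x, t)) (f' := fun t => F' (x, t)) x (fun y => hf x y)
    (by fun_prop) fun y hy => h0 (x, y) (by simp only; linarith)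
  rw [← integral_indicator (by rw [slice]; exact measurableSet_Ioo)] at this
  refine Eq.trans (integral_congr_ae (.of_forall fun y => ?_)) this
  simp only [indicator, mem_ofPred_eq, add_comm]

theorem slice_dx {w : ℝ × ℝ → ℝ} (hw : Differentiable ℝ w) (x y : ℝ) :
    HasDerivAt (fun t => w (t, y)) (fderiv ℝ w (x, y) (1, 0)) x :=
  (hw (x, y)).hasFDerivAt.comp_hasDerivAt x ((hasDerivAt_id x).prodMk (hasDerivAt_const x y))

theorem slice_dy {w : ℝ × ℝ → ℝ} (hw : Differentiable ℝ w) (x y : ℝ) :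
    HasDerivAt (fun t => w (x, t)) (fderiv ℝ w (x, y) (0, 1)) y :=
  (hw (x, y)).hasFDerivAt.comp_hasDerivAt y ((hasDerivAt_const y x).prodMk (hasDerivAt_id y))

end Pool.Agent.H.MP_f60174_an
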